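import Pool.Agent.Helper66_ML.Stmts2

/-!
# Squad ML, stage 2: defect groups

Text: `AWC_ML2.md`.
-/

open scoped BigOperators

noncomputable section

namespace Pool.Agent.PP.ML

open Pool.Agent.Helper51_AWC Pool.Agent.Helper79_WRA Pool.Agent.PP Pool.Agent.Helper98_CC

/-- `D` is a defect group of the block of `χ`: it is a Sylow `ℓ`-subgroup of the centraliser of some
`x` at whose class the central character of `χ` is not in `M`, and for all such elements `y` a
conjugate of `D` commutes with `y`. -/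
def IsDef (ℓ : ℕ) (M : Ideal (integralClosure ℤ ℂ)) {G : Type} [Group G] (χ : G → ℂ)
    (D : Subgroup G) : Prop :=
  IsPGroup ℓ D ∧
  (∃ x : G, ¬ Cong M (omega (MonoidHom.id G) χ x) 0 ∧
    D ≤ Subgroup.centralizer ({x} : Set G) ∧
    ¬ ℓ ∣ D.relIndex (Subgroup.centralizer ({x} : Set G))) ∧
  ∀ y : G, ¬ Cong M (omega (MonoidHom.id G) χ y) 0 → ∃ g : G, ∀ d ∈ D, g * d * g⁻¹ * y =
    y * (g * d * g⁻¹)

/-- LYO: a central character of `G` which does not vanish on the classes of a defect group comes from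
an algebra homomorphism of the centre of the group algebra of the centraliser of `D`. -/
def LyoStmt : Prop := ∀ (ℓ : ℕ) [Fact ℓ.Prime] (M : Ideal (integralClosure ℤ ℂ)) [M.IsMaximal],
  (ℓ : integralClosure ℤ ℂ) ∈ M → ∀ (G : Type) [Group G] [Finite G] (χ : G → ℂ), χ ∈ Irr G →
  ∀ D : Subgroup G, IsDef ℓ M χ D →
  ∃ μ : G → FF M,
    -- `μ` vanishes outside the centraliser of `D` and is constant on its classes
    (∀ y, y ∉ Subgroup.centralizer (D : Set G) → μ y = 0) ∧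
    (∀ y, ∀ c ∈ Subgroup.centralizer (D : Set G), μ (c * y * c⁻¹) = μ y) ∧
    -- `μ y` is the value at the sum of the class of `y` in the centraliser; central elements
    (∀ y ∈ Subgroup.centralizer (D : Set G), ∀ z ∈ D, z ∈ Subgroup.centralizer (D : Set G) →
      μ (z * y) = μ y) ∧
    ∀ (g : G) (t : Finset G), (∀ y ∈ t, y ∈ Subgroup.centralizer (D : Set G) ∧ IsConj g y) →
      (∀ y ∈ Subgroup.centralizer (D : Set G), IsConj g y →
        ∃! y₀, y₀ ∈ t ∧ ∃ c ∈ Subgroup.centralizer (D : Set G), y = c * y₀ * c⁻¹) →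
      red M (omega (MonoidHom.id G) χ g) = ∑ y ∈ t, μ y

/-- EXG: for every `z ∈ Z(D)` there is an element `g` with `ℓ`-part `z` such that the central
character is not in `M` at the class of `g` and `D` is a Sylow `ℓ`-subgroup of its centraliser. -/
def ExgStmt : Prop := ∀ (ℓ : ℕ) [Fact ℓ.Prime] (M : Ideal (integralClosure ℤ ℂ)) [M.IsMaximal],
  (ℓ : integralClosure ℤ ℂ) ∈ M → ∀ (G : Type) [Group G] [Finite G] (χ : G → ℂ), χ ∈ Irr G →
  ∀ D : Subgroup G, IsDef ℓ M χ D → ∀ z ∈ D, (∀ d ∈ D, z * d = d * z) →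
  ∃ (g : G) (k : ℕ), ¬ Cong M (omega (MonoidHom.id G) χ g) 0 ∧
    D ≤ Subgroup.centralizer ({g} : Set G) ∧
    ¬ ℓ ∣ D.relIndex (Subgroup.centralizer ({g} : Set G)) ∧ g ^ k = z

/-- MN3: the main theorem in terms of defect groups. -/
def Mn3Stmt : Prop := ∀ (ℓ : ℕ) [Fact ℓ.Prime] (M : Ideal (integralClosure ℤ ℂ)) [M.IsMaximal],
  (ℓ : integralClosure ℤ ℂ) ∈ M → ∀ (G : Type) [Group G] [Finite G],
  opCore ℓ G ≤ Subgroup.center G → ∀ χ ∈ Irr G, ∀ D : Subgroup G, IsDef ℓ M χ D →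
  ∀ (A : Type) [CommGroup A] (ρ : D →* A), (∀ r : D, (r : G) ∈ opCore ℓ G → ρ r = 1) →
  ∀ z : D, (∀ d : D, z * d = d * z) →
    ((orderOf (ρ z) * Nat.card (opCore ℓ G) : ℕ) : ℤ) ∣ altSum ℓ M χ

end Pool.Agent.PP.ML
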