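import Pool.Agent.Helper66_ML.Asm3

/-!
# Squad ML, stage 2, row MN4: elements central modulo `O_ℓ(G)`
-/

open scoped BigOperators

noncomputable section

namespace Pool.Agent.PP.ML.H66

open Pool.Agent.Helper51_AWC Pool.Agent.Helper79_WRA Pool.Agent.PP Pool.Agent.Helper98_CC
open Pool.Agent.PP.ML.H9

/-- MN4. -/
theorem mn4 (mn3 : Mn3Stmt) (idq : IdqStmt) : Mn4Stmt := by
  intro ℓ _ M _ hM G _ _ hcen χ hχ D hD A _ ρ hρ z hz
  let _ := Ideal.Quotient.field M
  have hℓ : ℓ.Prime := Fact.out
  have hF : GoodF ℓ (FF M) := H50.fld ℓ hℓ M hM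
  have hn := H75.opCore_normal (A := G) ℓ
  obtain ⟨e, he, h1, h2⟩ := H50.bid ℓ hℓ M hM G χ hχ
  set p : G →* G ⧸ opCore ℓ G := QuotientGroup.mk' (opCore ℓ G) with hp
  have hker : p.ker = opCore ℓ G := QuotientGroup.ker_mk' _
  have hsurj : Function.Surjective p := QuotientGroup.mk'_surjective (opCore ℓ G)
  have hkp : IsPGroup ℓ p.ker := by
    rw [hker]
    exact H75.opCore_isPGroup hℓ
  have hkc : p.ker ≤ Subgroup.center G := by
    rw [hker]
    exact hcen
  have heq := H75.altSum_central H20.nls H20.brm H63.smt H94.nch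
    (H50.dic H20.ibn H20.nls H20.brm) hℓ M hM hF hsurj hker hkp hkc χ hχ e he h1 h2
  have hOB : opCore ℓ (G ⧸ opCore ℓ G) = ⊥ := core_quot hsurj hker
  have main : ((Nat.card (G ⧸ opCore ℓ G) : ℤ) * ((orderOf (ρ z) : ℕ) : ℤ)) ∣
      YY ℓ (⊤ : Subgroup (G ⧸ opCore ℓ G)) (H75.push p e) := by
    apply dvd_YY hF _ _ (H75.push_isIdem hsurj he.1)
    intro f hf hef
    obtain ⟨ψ, hψ, hf1, hsum⟩ := block_sum hℓ hM hOB hf
    rw [← hsum]
    apply mul_dvd_mul_left
    -- the central characters
    have hlabs : ∀ g : G, red M (omega (MonoidHom.id G) (fun a => ψ (p a)) g) =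
        red M (omega (MonoidHom.id G) χ g) := by
      intro g
      have h3 : res M (H75.push p (clsum (FF M) ⊤ g)) ψ = labF M χ g := by
        rw [res_push hsurj hχ he h1 hf hef hψ hf1 (isCl_clsum g), H75.res_clsum g]
      by_cases hst : H10D.stZ p hkc g = ⊥
      · have hxu : ∀ u ∈ p.ker, (∃ w : G, w * g * w⁻¹ = g * u) → u = 1 := by
          intro u hu hw
          have h4 : u ∈ H10D.stZ p hkc g := H10D.mem_stZ.2 ⟨hu, isConj_iff.2 hw⟩
          rw [hst] at h4
          exact Subgroup.mem_bot.1 h4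
        rw [push_clsum hsurj hxu, H75.res_clsum (p g)] at h3
        rw [H10D.omega_comp_one hsurj hst]
        exact h3
      · obtain ⟨u, hu, hu1⟩ : ∃ u ∈ H10D.stZ p hkc g, u ≠ 1 := by
          by_contra hall
          push Not at hall
          exact hst ((Subgroup.eq_bot_iff_forall _).2 hall)
        obtain ⟨hu2, hu3⟩ := H10D.mem_stZ.1 hu
        obtain ⟨w, hw⟩ := isConj_iff.1 hu3
        rw [push_zero hF hkp hkc hu2 hu1 hw, H75.res_zero] at h3
        by_contra hne
        apply hst
        apply H10D.stZ_bot hM hsurj hkp hkc hψ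
        intro hcong
        apply hne
        have hint : IsIntegral ℤ (omega (MonoidHom.id G) (fun a => ψ (p a)) g) := by
          rw [H10D.omega_comp p hsurj hkc g ψ]
          exact (isIntegral_natCast _).mul (omega_integral _ hψ _)
        have h5 := (red_eq_iff hint isIntegral_zero).2 hcong
        rw [h5, red_zero]
        exact h3
    have hdef := idq ℓ M hM G (G ⧸ opCore ℓ G) p hsurj hkp hkc χ hχ D hD ψ hψ hlabs
    -- the homomorphism on the quotient
    have hq : Function.Surjective (p.subgroupMap D) := p.subgroupMap_surjective D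
    have hρker : (p.subgroupMap D).ker ≤ ρ.ker := by
      intro r hr
      rw [MonoidHom.mem_ker] at hr ⊢
      apply hρ
      have h4 : p (r : G) = 1 := congrArg Subtype.val hr
      rw [← hker]
      exact MonoidHom.mem_ker.2 h4
    obtain ⟨ρ', hρ'⟩ : ∃ ρ' : (D.map p) →* A, ∀ r : D, ρ' (p.subgroupMap D r) = ρ r := by
      refine ⟨(p.subgroupMap D).liftOfSurjective hq ⟨ρ, hρker⟩, fun r => ?_⟩
      exact (p.subgroupMap D).liftOfRightInverse_comp_apply _ _ ⟨ρ, hρker⟩ r
    have h6 := mn3 ℓ M hM (G ⧸ opCore ℓ G) (by rw [hOB]; exact bot_le) ψ hψ (D.map p) hdef A ρ'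
      (fun r hr => by
        rw [hOB, Subgroup.mem_bot] at hr
        have h7 : r = 1 := Subtype.ext hr
        rw [h7, map_one]) (p.subgroupMap D z) (fun d => by
          obtain ⟨d', rfl⟩ := hq d
          rw [← map_mul, ← map_mul]
          apply Subtype.ext
          show p ((z * d' : D) : G) = p ((d' * z : D) : G)
          have h8 := hz d'
          rw [← hker] at h8
          have h9 := MonoidHom.mem_ker.1 h8
          rw [map_mul, map_mul, map_mul, map_inv, map_inv] at h9
          rw [mul_inv_eq_one, mul_inv_eq_iff_eq_mul] at h9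
          rw [Subgroup.coe_mul, Subgroup.coe_mul, map_mul, map_mul]
          exact h9)
    rw [hρ', hOB, Subgroup.card_bot, mul_one] at h6
    exact h6
  obtain ⟨s, hs⟩ := main
  rw [hs] at heq
  have hcard : (Nat.card G : ℤ) = Nat.card (opCore ℓ G) * Nat.card (G ⧸ opCore ℓ G) := by
    rw [Subgroup.card_eq_card_quotient_mul_card_subgroup (opCore ℓ G)]
    push_cast
    ring
  rw [hker] at heq
  have hne : (Nat.card G : ℤ) ≠ 0 := by exact_mod_cast (Nat.card_pos (α := G)).ne'
  have hfin : altSum ℓ M χ = (Nat.card (opCore ℓ G) : ℤ) * (((orderOf (ρ z) : ℕ) : ℤ) * s) := by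
    apply mul_left_cancel₀ hne
    rw [heq]
    rw [hcard]
    ring
  rw [hfin]
  push_cast
  exact ⟨s, by ring⟩

end Pool.Agent.PP.ML.H66

namespace Pool.Agent.PP.ML

theorem mn4_ : Mn4Stmt := H66.mn4 mn3_ idq_

end Pool.Agent.PP.ML
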