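import Pool.Agent.Helper66_ML.Stmts
import Pool.Agent.Helper50_PP.Chi

/-!
# Squad ML, stage 2: the order of `g_ℓ` in `R/[R, R]` divides the alternating sum

Text: `AWC_ML2.md`.
-/

open scoped BigOperators

noncomputable section

namespace Pool.Agent.PP.ML

open Pool.Agent.Helper51_AWC Pool.Agent.Helper79_WRA Pool.Agent.PP Pool.Agent.Helper98_CC

/-! ## Part A: commutator counts with several punctures -/

/-- the number of the `(x, y, z₁, ..., z_m)` in `H` with `z_i` in the `i`-th set and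
`[x, y] = g z₁ ... z_m` -/
def commL {G : Type} [Group G] (H : Subgroup G) (Cs : List (Set G)) (g : G) : ℕ :=
  Nat.card {p : G × G × List G // p.1 ∈ H ∧ p.2.1 ∈ H ∧ (∀ z ∈ p.2.2, z ∈ H) ∧
    List.Forall₂ (fun z K => z ∈ K) p.2.2 Cs ∧
    p.1 * p.2.1 * p.1⁻¹ * p.2.1⁻¹ = g * p.2.2.prod}

/-- the alternating sum over the chains of nontrivial `ℓ`-subgroups -/
def torusL (ℓ : ℕ) {G : Type} [Group G] (Cs : List (Set G)) (g : G) : ℤ :=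
  ∑ᶠ (d : Finset (Subgroup G)) (_ : d ∈ pChains ℓ G),
    (-1) ^ d.card * (commL (stab d) Cs g : ℤ)

/-- closed under conjugation -/
def Cj {G : Type} [Group G] (K : Set G) : Prop := ∀ g k : G, k ∈ K → g * k * g⁻¹ ∈ K

/-- The set of the tuples `(s, x, y, l)`: `x`, `y` and the members of the list `l` fix `s`, the
members of `l` are in the given sets, `[x, y] = g l₁ ... l_m`, and no nontrivial subgroup of `R` that
fixes `s` is normalised by `x`, `y` and the members of `l`. -/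
structure InOmL {G X : Type} [Group G] [MulAction G X] (R : Subgroup G) (g : G) (Cs : List (Set G))
    (w : X × G × G × List G) : Prop where
  sx : w.2.1 • w.1 = w.1
  sy : w.2.2.1 • w.1 = w.1
  sl : ∀ z ∈ w.2.2.2, z • w.1 = w.1
  ml : List.Forall₂ (fun z K => z ∈ K) w.2.2.2 Cs
  cm : w.2.1 * w.2.2.1 * w.2.1⁻¹ * w.2.2.1⁻¹ = g * w.2.2.2.prod
  tr : ∀ U : Subgroup G, U ≤ R → (∀ u ∈ U, u • w.1 = w.1) →
    (∀ u ∈ U, w.2.1 * u * w.2.1⁻¹ ∈ U) → (∀ u ∈ U, w.2.2.1 * u * w.2.2.1⁻¹ ∈ U) →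
    (∀ z ∈ w.2.2.2, ∀ u ∈ U, z * u * z⁻¹ ∈ U) → U = ⊥

/-- TL1: any number of punctures. -/
def TL1Stmt : Prop := ∀ (G X A : Type) [Group G] [Finite G] [Finite X] [MulAction G X] [CommGroup A]
  (R : Subgroup G) (g : G) (ρ : R →* A), (∀ r ∈ R, r * g = g * r) →
  ∀ Cs : List (Set G), (∀ K ∈ Cs, Cj K) → ∀ (k : ℕ) (hk : g ^ k ∈ R),
    orderOf (ρ ⟨g ^ k, hk⟩) * Nat.card R ∣ {w : X × G × G × List G | InOmL R g Cs w}.ncard

/-- TL3: two more punctures. -/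
def TL3Stmt : Prop := ∀ (G X A : Type) [Group G] [Finite G] [Finite X] [MulAction G X] [CommGroup A]
  (R : Subgroup G) (g : G) (ρ : R →* A), (∀ r ∈ R, r * g = g * r) →
  ∀ K K' : Set G, Cj K → Cj K' → ∀ (k : ℕ) (hk : g ^ k ∈ R), (∀ r ∈ R, r ^ 3 ≠ g ^ k) →
    3 * orderOf (ρ ⟨g ^ k, hk⟩) * Nat.card R ∣
      {w : X × G × G × List G | InOmL R g [K, K'] w}.ncard

/-- TL2: one more puncture. -/
def TL2Stmt : Prop := ∀ (G X A : Type) [Group G] [Finite G] [Finite X] [MulAction G X] [CommGroup A]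
  (R : Subgroup G) (g : G) (ρ : R →* A), (∀ r ∈ R, r * g = g * r) →
  ∀ K : Set G, Cj K → ∀ (k : ℕ) (hk : g ^ k ∈ R), (∀ r ∈ R, r ^ 2 ≠ g ^ k) →
    4 * orderOf (ρ ⟨g ^ k, hk⟩) * Nat.card R ∣ {w : X × G × G × List G | InOmL R g [K] w}.ncard

/-- MOBK: the chains fixed by a group `K` and a nontrivial subgroup of `R` normalised by `K`. -/
def MobKStmt : Prop := ∀ (ℓ : ℕ) [Fact ℓ.Prime] (G : Type) [Group G] [Finite G] (R : Subgroup G),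
  IsPGroup ℓ R → ∀ K : Subgroup G,
  ∑ᶠ (d : Finset (Subgroup G)) (_ : d ∈ pChains ℓ G ∧ K ≤ stab d ∧
    ∃ U : Subgroup G, U ≠ ⊥ ∧ U ≤ R ∧ U ≤ stab d ∧ ∀ x ∈ K, ∀ u ∈ U, x * u * x⁻¹ ∈ U),
    (-1 : ℤ) ^ d.card = 0

/-- WDA: from the sets of tuples to the sums over the chains. -/
def WdaStmt : Prop := ∀ (ℓ : ℕ) [Fact ℓ.Prime] (G : Type) [Group G] [Finite G]
  (R : Subgroup G) (g : G), IsPGroup ℓ R → ∀ (Cs : List (Set G)) (m : ℕ),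
  (∀ (X : Type) [Finite X] [MulAction G X],
    m ∣ {w : X × G × G × List G | InOmL R g Cs w}.ncard) → (m : ℤ) ∣ torusL ℓ Cs g

/-- WDVL: any number of punctures. -/
def WdvLStmt : Prop := ∀ (ℓ : ℕ) [Fact ℓ.Prime] (G A : Type) [Group G] [Finite G] [CommGroup A]
  (R : Subgroup G) (g : G) (ρ : R →* A), IsPGroup ℓ R → (∀ r ∈ R, r * g = g * r) →
  ∀ Cs : List (Set G), (∀ K ∈ Cs, Cj K) → ∀ (k : ℕ) (hk : g ^ k ∈ R),
    ((orderOf (ρ ⟨g ^ k, hk⟩) * Nat.card R : ℕ) : ℤ) ∣ torusL ℓ Cs g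

/-- WDV3: two more punctures (star relation). -/
def Wdv3Stmt : Prop := ∀ (ℓ : ℕ) [Fact ℓ.Prime] (G A : Type) [Group G] [Finite G] [CommGroup A]
  (R : Subgroup G) (g : G) (ρ : R →* A), IsPGroup ℓ R → (∀ r ∈ R, r * g = g * r) →
  ∀ K K' : Set G, Cj K → Cj K' → ∀ (k : ℕ) (hk : g ^ k ∈ R), (∀ r ∈ R, r ^ 3 ≠ g ^ k) →
    ((3 * orderOf (ρ ⟨g ^ k, hk⟩) * Nat.card R : ℕ) : ℤ) ∣ torusL ℓ [K, K'] g

/-- WDV2: one more puncture (chain relation). -/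
def Wdv2Stmt : Prop := ∀ (ℓ : ℕ) [Fact ℓ.Prime] (G A : Type) [Group G] [Finite G] [CommGroup A]
  (R : Subgroup G) (g : G) (ρ : R →* A), IsPGroup ℓ R → (∀ r ∈ R, r * g = g * r) →
  ∀ K : Set G, Cj K → ∀ (k : ℕ) (hk : g ^ k ∈ R), (∀ r ∈ R, r ^ 2 ≠ g ^ k) →
    ((4 * orderOf (ρ ⟨g ^ k, hk⟩) * Nat.card R : ℕ) : ℤ) ∣ torusL ℓ [K] g

/-! ## Part B: local divisibility -/

/-- `z` is divisible by `m` in the localisation of the algebraic integers at `M` -/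
def LD (M : Ideal (integralClosure ℤ ℂ)) (m : ℕ) (z : ℂ) : Prop :=
  ∃ u v : ℂ, IsIntegral ℤ u ∧ red M u ≠ 0 ∧ IsIntegral ℤ v ∧ u * z = m * v

/-- the subring generated by the roots of unity of order prime to `ℓ` -/
def W0 (ℓ : ℕ) : Subring ℂ := Subring.closure {ζ | ∃ n : ℕ, ¬ ℓ ∣ n ∧ ζ ^ n = 1}

/-- LDA: elementary properties of the local divisibility. -/
def LdaStmt : Prop := ∀ (ℓ : ℕ) [Fact ℓ.Prime] (M : Ideal (integralClosure ℤ ℂ)) [M.IsMaximal],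
  (ℓ : integralClosure ℤ ℂ) ∈ M →
  (∀ (m : ℕ) (z w : ℂ), LD M m z → LD M m w → LD M m (z + w)) ∧
  (∀ (m n : ℕ) (z w : ℂ), LD M m z → LD M n w → LD M (m * n) (z * w)) ∧
  (∀ (m : ℕ) (z w : ℂ), LD M m z → IsIntegral ℤ w → LD M m (w * z)) ∧
  (∀ (m : ℕ) (z : ℂ) (t : ℕ), ¬ ℓ ∣ t → LD M m (t * z) → LD M m z) ∧
  ∀ (n : ℕ) (z : ℤ), LD M (ℓ ^ n) (z : ℂ) → ((ℓ ^ n : ℕ) : ℤ) ∣ z

/-- LIM: powers of algebraic integers. -/
def LimStmt : Prop := ∀ (ℓ : ℕ) [Fact ℓ.Prime] (M : Ideal (integralClosure ℤ ℂ)) [M.IsMaximal],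
  (ℓ : integralClosure ℤ ℂ) ∈ M → ∀ (n : ℕ) (z : ℂ), IsIntegral ℤ z →
  (red M z = 0 → ∃ N₀ : ℕ, ∀ N ≥ N₀, LD M (ℓ ^ n) (z ^ ℓ ^ N)) ∧
  (red M z = 1 → ∃ N₀ : ℕ, ∀ N ≥ N₀, LD M (ℓ ^ n) (z ^ ℓ ^ N - 1))

/-- TEI: lifts of residues; UNR: `W0` is unramified. -/
def TeiStmt : Prop := ∀ (ℓ : ℕ) [Fact ℓ.Prime] (M : Ideal (integralClosure ℤ ℂ)) [M.IsMaximal],
  (ℓ : integralClosure ℤ ℂ) ∈ M →
  (∀ w : FF M, ∃ z ∈ W0 ℓ, IsIntegral ℤ z ∧ red M z = w ∧ (w = 0 → z = 0)) ∧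
  (∀ z ∈ W0 ℓ, IsIntegral ℤ z) ∧ ∀ z ∈ W0 ℓ, red M z = 0 → LD M ℓ z

/-- ORD: every nonzero residue has finite order. -/
def OrdStmt : Prop := ∀ (ℓ : ℕ) [Fact ℓ.Prime] (M : Ideal (integralClosure ℤ ℂ)) [M.IsMaximal],
  (ℓ : integralClosure ℤ ℂ) ∈ M → ∀ w : FF M, w ≠ 0 → ∃ E : ℕ, 0 < E ∧ w ^ E = 1

/-! ## The sums over the characters -/

/-- the value of the central character at a class function of `G` (the character `a` of a subgroup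
is extended by zero) -/
def omF {G : Type} [Group G] (f a : G → ℂ) : ℂ := (∑ᶠ g : G, f g * a g) / a 1

/-- the alternating sum over the chains, up to conjugation, of the sums of `F a` over the irreducible
characters `a` of the stabilisers -/
def altF (ℓ : ℕ) {G : Type} [Group G] (F : (G → ℂ) → ℂ) : ℂ :=
  ∑ᶠ q : Quotient (chainSetoid ℓ G), (-1) ^ q.out.length *
    ∑ᶠ (a : G → ℂ) (_ : a ∈ IrrS (stab q.out.mem)), F a

/-- LLS: the count in terms of characters. -/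
def LlsStmt : Prop := ∀ (ℓ : ℕ) [Fact ℓ.Prime] (G : Type) [Group G] [Finite G], opCore ℓ G = ⊥ →
  ∀ (g : G) (bs : List G), (torusL ℓ (bs.map fun b => {x | IsConj b x}) g : ℂ) =
    (cz g : ℂ) * altF ℓ fun a => omega (MonoidHom.id G) a g *
      (bs.map fun b => omega (MonoidHom.id G) a b).prod

/-- the values of `torusL` at `g` with `m` punctures are divisible by `n` times the `ℓ`-part of the
order of the centraliser of `g` -/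
def DV (ℓ n m : ℕ) {G : Type} [Group G] (g : G) : Prop :=
  ∀ bs : List G, bs.length = m → ∃ r t : ℕ, r * t = cz g ∧ ¬ ℓ ∣ t ∧
    ((n * r : ℕ) : ℤ) ∣ torusL ℓ (bs.map fun b => {x | IsConj b x}) g

/-- DVR: the good elements. -/
def DvrStmt : Prop := ∀ (ℓ : ℕ) [Fact ℓ.Prime] (G A : Type) [Group G] [Finite G] [CommGroup A]
  (R : Subgroup G) (g : G) (ρ : R →* A), IsPGroup ℓ R → R ≤ Subgroup.centralizer ({g} : Set G) →
  ¬ ℓ ∣ R.relIndex (Subgroup.centralizer ({g} : Set G)) → ∀ (k : ℕ) (hk : g ^ k ∈ R),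
    (∀ m, DV ℓ (orderOf (ρ ⟨g ^ k, hk⟩)) m g) ∧
    ((∀ r ∈ R, r ^ 3 ≠ g ^ k) → DV ℓ (3 * orderOf (ρ ⟨g ^ k, hk⟩)) 2 g) ∧
    ((∀ r ∈ R, r ^ 2 ≠ g ^ k) → DV ℓ (4 * orderOf (ρ ⟨g ^ k, hk⟩)) 1 g)

/-- NUM: class functions `f₁` supported on good elements and class functions `f₂, ..., f_(m+1)`. -/
def NumStmt : Prop := ∀ (ℓ : ℕ) [Fact ℓ.Prime] (M : Ideal (integralClosure ℤ ℂ)) [M.IsMaximal],
  (ℓ : integralClosure ℤ ℂ) ∈ M → ∀ (G : Type) [Group G] [Finite G], opCore ℓ G = ⊥ →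
  ∀ (n : ℕ) (f : G → ℂ) (fs : List (G → ℂ)),
    (∀ x y, f (y * x * y⁻¹) = f x) → (∀ x, IsIntegral ℤ (f x)) →
    (∀ h ∈ fs, (∀ x y, h (y * x * y⁻¹) = h x) ∧ ∀ x, IsIntegral ℤ (h x)) →
    (∀ g, f g ≠ 0 → DV ℓ n fs.length g) →
    LD M n (altF ℓ fun a => omF f a * (fs.map fun h => omF h a).prod)

/-- ALB: the characters and their labels: sums of `F` depending on the label. -/
def AlbStmt : Prop := ∀ (ℓ : ℕ) [Fact ℓ.Prime] (M : Ideal (integralClosure ℤ ℂ)) [M.IsMaximal],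
  (ℓ : integralClosure ℤ ℂ) ∈ M → ∀ (G : Type) [Group G] [Finite G], opCore ℓ G = ⊥ →
  ∀ χ ∈ Irr G, (altSum ℓ M χ : ℂ) =
    open Classical in altF ℓ fun a => if labF M a = labF M χ then 1 else 0

/-- SEL: a class function which selects the block of `χ`. -/
def SelStmt : Prop := ∀ (ℓ : ℕ) [Fact ℓ.Prime] (M : Ideal (integralClosure ℤ ℂ)) [M.IsMaximal],
  (ℓ : integralClosure ℤ ℂ) ∈ M → ∀ (G : Type) [Group G] [Finite G], ∀ χ ∈ Irr G,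
  ∃ f : G → ℂ, (∀ x y, f (y * x * y⁻¹) = f x) ∧ (∀ x, IsIntegral ℤ (f x)) ∧
    ∀ (d : Finset (Subgroup G)), (∀ D ∈ d, IsPGroup ℓ D) →
      IsChain (· ≤ ·) (d : Set (Subgroup G)) → ∀ a ∈ IrrS (stab d),
      IsIntegral ℤ (omF f a) ∧ (labF M a = labF M χ → red M (omF f a) = 1) ∧
        (labF M a ≠ labF M χ → red M (omF f a) = 0)

/-- MN1: the main theorem for `O_ℓ(G) = 1`. -/
def Mn1Stmt : Prop := ∀ (ℓ : ℕ) [Fact ℓ.Prime] (M : Ideal (integralClosure ℤ ℂ)) [M.IsMaximal],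
  (ℓ : integralClosure ℤ ℂ) ∈ M → ∀ (G : Type) [Group G] [Finite G], opCore ℓ G = ⊥ →
  ∀ χ ∈ Irr G, ∀ g : G, red M (omega (MonoidHom.id G) χ g) ≠ 0 →
  ∀ n : ℕ, (∀ m, DV ℓ (ℓ ^ n) m g) → ((ℓ ^ n : ℕ) : ℤ) ∣ altSum ℓ M χ

/-- MN2: the main theorem for central `O_ℓ(G)`: the order of the image of `x` (up to the part
prime to `ℓ`) in `R / [R, R] O_ℓ(G)`, times the order of `O_ℓ(G)`, divides the alternating sum. -/
def Mn2Stmt : Prop := ∀ (ℓ : ℕ) [Fact ℓ.Prime] (M : Ideal (integralClosure ℤ ℂ)) [M.IsMaximal],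
  (ℓ : integralClosure ℤ ℂ) ∈ M → ∀ (G : Type) [Group G] [Finite G],
  opCore ℓ G ≤ Subgroup.center G → ∀ χ ∈ Irr G,
  ∀ x : G, ¬ Cong M (omega (MonoidHom.id G) χ x) 0 →
  ∀ R : Subgroup G, IsPGroup ℓ R → R ≤ Subgroup.centralizer ({x} : Set G) →
  ¬ ℓ ∣ R.relIndex (Subgroup.centralizer ({x} : Set G)) →
  ∀ (A : Type) [CommGroup A] (ρ : R →* A), (∀ r : R, (r : G) ∈ opCore ℓ G → ρ r = 1) →
  ∀ (k : ℕ) (hk : x ^ k ∈ R),
    ((orderOf (ρ ⟨x ^ k, hk⟩) * Nat.card (opCore ℓ G) : ℕ) : ℤ) ∣ altSum ℓ M χ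

/-! ## Part B2: modulo 9 -/

/-- CHP: the characteristic polynomial. -/
def ChpStmt2 : Prop := ∀ (ℓ : ℕ) [Fact ℓ.Prime] (H : Type) [Group H] [Fintype H] (f : H → ℂ),
  (∀ x y, f (y * x * y⁻¹) = f x) → (∀ x, f x ∈ W0 ℓ) →
  ∀ s : Finset (H → ℂ), (∀ χ, χ ∈ s ↔ χ ∈ Irr H) → ∀ i : ℕ,
    (∏ χ ∈ s, (Polynomial.X - Polynomial.C (H50.om f χ))).coeff i ∈ W0 ℓ

/-- CUB: cubes modulo `9`. -/
def CubStmt : Prop := ∀ (M : Ideal (integralClosure ℤ ℂ)) [M.IsMaximal],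
  ((3 : ℕ) : integralClosure ℤ ℂ) ∈ M → ∀ (ι : Type) (s : Finset ι) (w : ι → ℂ),
  (∀ i ∈ s, IsIntegral ℤ (w i)) → (∀ i ∈ s, red M (w i) = 0 ∨ red M (w i) = -1) →
  (∀ i : ℕ, (∏ j ∈ s, (Polynomial.X - Polynomial.C (w j))).coeff i ∈ W0 3) →
    open Classical in
    LD M 9 (∑ i ∈ s, w i ^ 3 + ((s.filter fun i => red M (w i) = -1).card : ℂ))

/-- elementary abelian `ℓ`-groups -/
def ElAb (ℓ : ℕ) : (Q : Type) → [Group Q] → Prop :=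
  fun Q _ => (∀ a b : Q, a * b = b * a) ∧ ∀ a : Q, a ^ ℓ = 1

/-- NN3: nine divides the alternating sum, `O_3(G) = 1`. -/
def Nn3Stmt : Prop := ∀ (M : Ideal (integralClosure ℤ ℂ)) [M.IsMaximal],
  ((3 : ℕ) : integralClosure ℤ ℂ) ∈ M → ∀ (G : Type) [Group G] [Finite G], opCore 3 G = ⊥ →
  letI := Ideal.Quotient.field M
  ∀ f : G → FF M, IsBlk f → Pos 3 f ⊤ → DF.DfE 3 (ElAb 3) f ⊤ →
    ∀ χ ∈ Irr G, res M f χ = 1 → (9 : ℤ) ∣ altSum 3 M χ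

/-- SQR: squares modulo `4`. -/
def SqrStmt : Prop := ∀ (M : Ideal (integralClosure ℤ ℂ)) [M.IsMaximal],
  ((2 : ℕ) : integralClosure ℤ ℂ) ∈ M → ∀ (ι : Type) (s : Finset ι) (w : ι → ℂ),
  (∀ i ∈ s, IsIntegral ℤ (w i)) → (∀ i ∈ s, red M (w i) = 0 ∨ red M (w i) = 1) →
  (∀ i : ℕ, (∏ j ∈ s, (Polynomial.X - Polynomial.C (w j))).coeff i ∈ W0 2) →
    open Classical in
    LD M 4 (∑ i ∈ s, w i ^ 2 - ((s.filter fun i => red M (w i) = 1).card : ℂ))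

/-- NN2: four divides the alternating sum, `O_2(G) = 1`. -/
def Nn2Stmt : Prop := ∀ (M : Ideal (integralClosure ℤ ℂ)) [M.IsMaximal],
  ((2 : ℕ) : integralClosure ℤ ℂ) ∈ M → ∀ (G : Type) [Group G] [Finite G], opCore 2 G = ⊥ →
  letI := Ideal.Quotient.field M
  ∀ f : G → FF M, IsBlk f → Pos 2 f ⊤ → DF.DfE 2 (ElAb 2) f ⊤ →
    ∀ χ ∈ Irr G, res M f χ = 1 → (4 : ℤ) ∣ altSum 2 M χ

/-- GEN: from `O_ℓ(G) = 1` to central `O_ℓ(G)`, for a class `𝒟` of groups closed under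
subgroups. -/
def GenStmt : Prop := ∀ (ℓ : ℕ) [Fact ℓ.Prime] (M : Ideal (integralClosure ℤ ℂ)) [M.IsMaximal],
  (ℓ : integralClosure ℤ ℂ) ∈ M → ∀ (𝒟 : (Q : Type) → [Group Q] → Prop) (m : ℕ),
  (∀ (Q R : Type) [Group Q] [Group R] (j : Q →* R), Function.Injective j → 𝒟 R → 𝒟 Q) →
  (∀ (G : Type) [Group G] [Finite G], opCore ℓ G = ⊥ →
    letI := Ideal.Quotient.field M
    ∀ f : G → FF M, IsBlk f → Pos ℓ f ⊤ → DF.DfE ℓ 𝒟 f ⊤ →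
      ∀ χ ∈ Irr G, res M f χ = 1 → (m : ℤ) ∣ altSum ℓ M χ) →
  ∀ (G : Type) [Group G] [Finite G], opCore ℓ G ≤ Subgroup.center G →
  ∀ χ ∈ Irr G, LargeDefect ℓ M χ →
  (∃ (x : G) (P : Subgroup G), ¬ Cong M (omega (MonoidHom.id G) χ x) 0 ∧
    P ≤ Subgroup.centralizer ({x} : Set G) ∧ IsPGroup ℓ P ∧
    ¬ ℓ ∣ P.relIndex (Subgroup.centralizer ({x} : Set G)) ∧
    ∃ (P₀ : Type) (_ : Group P₀) (f : P →* P₀), 𝒟 P₀ ∧
      ∀ u : P, f u = 1 ↔ (u : G) ∈ opCore ℓ G) →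
  ((m * Nat.card (opCore ℓ G) : ℕ) : ℤ) ∣ altSum ℓ M χ

end Pool.Agent.PP.ML
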