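import Pool.Agent.Helper98_CC.Stmts
import Pool.Agent.Helper66_DF.StmtsE2

/-!
# Squad ML: the alternating sum modulo `ℓ` for blocks with abelian defect groups

Text: `AWC_ML.md`.
-/

open scoped BigOperators

noncomputable section

namespace Pool.Agent.PP.ML

open Pool.Agent.Helper51_AWC Pool.Agent.Helper79_WRA Pool.Agent.PP Pool.Agent.Helper98_CC

/-! ## Part A: transfer -/

/-- PUR: if `ψ : Q → M` is injective and no subgroup `U ≠ 1` of `Q` is mapped into itself, then the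
exponent of `M` divides `|M : Q|`. -/
def PurStmt : Prop := ∀ (M : Type) [CommGroup M] [Finite M] (Q : Subgroup M) (ψ : Q →* M),
  Function.Injective ψ →
  (∀ U : Subgroup M, U ≤ Q → (∀ q : Q, (q : M) ∈ U → ψ q ∈ U) → U = ⊥) →
  ∀ m : M, m ^ Q.index = 1

/-- TAU: the transfer of a permutation which commutes with a free action of a group `R`, with
values in an abelian group `A`, `ρ : R → A`.  The sets `C w` are the classes of a partition; the
class of `w` is `R φ(M)`, the abelian group `M` acts on `C w / R` transitively, `f` acts as the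
element `m₀`, and `C w` consists of `N` orbits. -/
def TauStmt : Prop := ∀ (Ω R A : Type) [Finite Ω] [Group R] [Finite R] [CommGroup A] (ρ : R →* A)
  [MulAction R Ω], (∀ (r : R) (w : Ω), r • w = w → r = 1) → ∃ τ : (Ω → Ω) → A,
  (∀ f h : Ω → Ω, Function.Bijective f → Function.Bijective h →
    (∀ (r : R) w, f (r • w) = r • f w) → (∀ (r : R) w, h (r • w) = r • h w) →
    τ (f ∘ h) = τ f * τ h) ∧
  (∀ r : R, (∀ r' : R, r * r' = r' * r) →
    τ (fun w => r • w) = ρ r ^ (Nat.card Ω / Nat.card R)) ∧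
  ∀ f : Ω → Ω, Function.Bijective f → (∀ (r : R) w, f (r • w) = r • f w) →
    ∀ C : Ω → Set Ω, (∀ w, w ∈ C w) → (∀ w w', w' ∈ C w → C w' = C w) →
    (∀ w, ∃ (M : Type) (_ : CommGroup M) (_ : Finite M) (m₀ : M) (φ : M → Ω) (N : ℕ),
      φ 1 = w ∧ (∀ m, f (φ m) = φ (m * m₀)) ∧
      (∀ (m m' m'' : M) (r : R), φ m' = r • φ m → φ (m' * m'') = r • φ (m * m'')) ∧
      (∀ w', w' ∈ C w ↔ ∃ (r : R) (m : M), w' = r • φ m) ∧
      (C w).ncard = N * Nat.card R ∧ m₀ ^ N = 1) → τ f = 1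

section om

variable {G X : Type} [Group G] [MulAction G X]

/-- The set `Ω*` of the triples `(s, x, y)`, `x, y` in the stabiliser of `s`, `[x, y] = g`, such
that no nontrivial subgroup of `R` that fixes `s` is normalised by `x` and `y`. -/
structure InOm (R : Subgroup G) (g : G) (w : X × G × G) : Prop where
  sx : w.2.1 • w.1 = w.1
  sy : w.2.2 • w.1 = w.1
  cm : w.2.1 * w.2.2 * w.2.1⁻¹ * w.2.2⁻¹ = g
  tr : ∀ U : Subgroup G, U ≤ R → (∀ u ∈ U, u • w.1 = w.1) →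
    (∀ u ∈ U, w.2.1 * u * w.2.1⁻¹ ∈ U) → (∀ u ∈ U, w.2.2 * u * w.2.2⁻¹ ∈ U) → U = ⊥

/-- the elements of `R` which fix `s` and commute with `x` -/
def cst (R : Subgroup G) (w : X × G × G) : Subgroup G :=
  R ⊓ MulAction.stabilizer G w.1 ⊓ Subgroup.centralizer {w.2.1}

/-- The least subgroup `Q` of `A = cst R w` such that `r ∈ A` and `y⁻¹ r y r⁻¹ ∈ ⟨x⟩ Q` imply
`r ∈ Q`. -/
def clo (R : Subgroup G) (w : X × G × G) : Subgroup G :=
  sInf {Q : Subgroup G | Q ≤ cst R w ∧ ∀ r ∈ cst R w,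
    w.2.2⁻¹ * r * w.2.2 * r⁻¹ ∈ Subgroup.zpowers w.2.1 ⊔ Q → r ∈ Q}

/-- the abelian group `⟨x⟩ Q` -/
def mul (R : Subgroup G) (w : X × G × G) : Subgroup G := Subgroup.zpowers w.2.1 ⊔ clo R w

/-- right multiplication of `y` -/
def rm (w : X × G × G) (m : G) : X × G × G := (w.1, w.2.1, w.2.2 * m)

/-- conjugation of a triple -/
def cjt (r : G) (w : X × G × G) : X × G × G := (r • w.1, r * w.2.1 * r⁻¹, r * w.2.2 * r⁻¹)

/-- the class of a triple -/
def cls (R : Subgroup G) (w : X × G × G) : Set (X × G × G) :=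
  {w' | ∃ r ∈ R, ∃ m ∈ mul R w, w' = cjt r (rm w m)}

/-- the first generator of the braid group -/
def aa (w : X × G × G) : X × G × G := (w.1, w.2.1, w.2.2 * w.2.1)

/-- the second generator of the braid group -/
def bb (w : X × G × G) : X × G × G := (w.1, w.2.1 * w.2.2⁻¹, w.2.2)

end om

/-- CLO: the classes.  `R` is any subgroup which commutes with `g`. -/
def CloStmt : Prop := ∀ (G X : Type) [Group G] [Finite G] [Finite X] [MulAction G X]
  (R : Subgroup G) (g : G), (∀ r ∈ R, r * g = g * r) →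
  ∀ w : X × G × G, InOm R g w →
    (∀ w' ∈ cls R w, InOm R g w' ∧ cls R w' = cls R w) ∧
    (∀ m ∈ mul R w, ∀ m' ∈ mul R w, m * m' = m' * m) ∧
    (∀ m ∈ mul R w, ∀ m' ∈ mul R w, ∀ m'' ∈ mul R w, ∀ r ∈ R,
      rm w m' = cjt r (rm w m) → rm w (m' * m'') = cjt r (rm w (m * m''))) ∧
    ∃ N : ℕ, (cls R w).ncard = N * Nat.card R ∧ w.2.1 ^ N = 1

/-- BRD: the braid relations. -/
def BrdStmt : Prop := ∀ (G X : Type) [Group G] [Finite G] [MulAction G X]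
  (R : Subgroup G) (g : G), (∀ r ∈ R, r * g = g * r) →
  (∀ w : X × G × G, InOm R g w → InOm R g (aa w) ∧ InOm R g (bb w) ∧
    (∀ r ∈ R, InOm R g (cjt r w)) ∧ (∀ r ∈ R, cjt r w = w → r = 1) ∧
    aa (bb (aa w)) = bb (aa (bb w)) ∧
    (fun v : X × G × G => aa (bb (aa v)))^[4] w = cjt g⁻¹ w ∧ g • w.1 = w.1) ∧
  Function.Injective (aa : X × G × G → X × G × G) ∧
  Function.Injective (bb : X × G × G → X × G × G) ∧
  ∀ (r : G) (w : X × G × G), cjt r (aa w) = aa (cjt r w) ∧ cjt r (bb w) = bb (cjt r w)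

/-- T1: the divisibility.  `R` is any subgroup which commutes with `g`, `A` is abelian. -/
def T1Stmt : Prop := ∀ (G X A : Type) [Group G] [Finite G] [Finite X] [MulAction G X] [CommGroup A]
  (R : Subgroup G) (g : G) (ρ : R →* A), (∀ r ∈ R, r * g = g * r) →
  ∀ (k : ℕ) (hk : g ^ k ∈ R),
    orderOf (ρ ⟨g ^ k, hk⟩) * Nat.card R ∣ {w : X × G × G | InOm R g w}.ncard

/-! ## Part B: chains -/

/-- COX: the chains fixed by a group with a nontrivial normal `ℓ`-subgroup. -/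
def CoxStmt : Prop := ∀ (ℓ : ℕ) [Fact ℓ.Prime] (G : Type) [Group G] [Finite G] (L U : Subgroup G),
  U ≠ ⊥ → IsPGroup ℓ U → U ≤ L → L ≤ Subgroup.normalizer (U : Set G) →
  ∑ᶠ (d : Finset (Subgroup G)) (_ : d ∈ pChains ℓ G ∧ L ≤ stab d), (-1 : ℤ) ^ d.card = 0

/-- MOB: the chains fixed by `x`, `y` and a nontrivial subgroup of `R` normalised by `x` and `y`. -/
def MobStmt : Prop := ∀ (ℓ : ℕ) [Fact ℓ.Prime] (G : Type) [Group G] [Finite G] (R : Subgroup G),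
  IsPGroup ℓ R → ∀ x y : G,
  ∑ᶠ (d : Finset (Subgroup G)) (_ : d ∈ pChains ℓ G ∧ x ∈ stab d ∧ y ∈ stab d ∧
    ∃ U : Subgroup G, U ≠ ⊥ ∧ U ≤ R ∧ U ≤ stab d ∧ (∀ u ∈ U, x * u * x⁻¹ ∈ U) ∧
      ∀ u ∈ U, y * u * y⁻¹ ∈ U), (-1 : ℤ) ^ d.card = 0

/-- WDV: the divisibility of the signed commutator count. -/
def WdvStmt : Prop := ∀ (ℓ : ℕ) [Fact ℓ.Prime] (G A : Type) [Group G] [Finite G] [CommGroup A]
  (R : Subgroup G) (g : G) (ρ : R →* A), IsPGroup ℓ R → (∀ r ∈ R, r * g = g * r) →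
  ∀ (k : ℕ) (hk : g ^ k ∈ R),
    ((orderOf (ρ ⟨g ^ k, hk⟩) * Nat.card R : ℕ) : ℤ) ∣ torusSum ℓ g

/-! ## Part C: blocks -/

/-- the sum of the `ℓ`-elements -/
def ellS (ℓ : ℕ) (F : Type) [Field F] {H : Type} [Group H] : H → F :=
  open Classical in fun u => if ∃ n : ℕ, u ^ ℓ ^ n = 1 then 1 else 0

/-- LAM: the sum of the `ℓ`-elements is nilpotent on the blocks of positive defect. -/
def LamStmt : Prop := ∀ (ℓ : ℕ) (F : Type) [Field F], GoodF ℓ F → ∀ (H : Type) [Group H] [Finite H]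
  (e : H → F), IsBlk e → Pos ℓ e ⊤ → ∃ n : ℕ, (mulF (ellS ℓ F))^[n] e = 0

/-- REG: multiplication with the sum of the `ℓ`-elements does not change the coefficients of a
central idempotent at the `ℓ`-regular elements. -/
def RegStmt : Prop := ∀ (ℓ : ℕ) (F : Type) [Field F], GoodF ℓ F → ∀ (H : Type) [Group H] [Finite H]
  (e : H → F), IsIdem e → ∀ g : H, Reg ℓ g → mulF e (ellS ℓ F) g = e g

/-- abelian groups -/
def Ab : (Q : Type) → [Group Q] → Prop := fun Q _ => ∀ a b : Q, a * b = b * a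

/-- GLU: groups with `O_ℓ(G) = 1`. -/
def GluStmt : Prop := ∀ (ℓ : ℕ) [Fact ℓ.Prime] (M : Ideal (integralClosure ℤ ℂ)) [M.IsMaximal],
  (ℓ : integralClosure ℤ ℂ) ∈ M → ∀ (G : Type) [Group G] [Finite G], opCore ℓ G = ⊥ →
  letI := Ideal.Quotient.field M
  ∀ f : G → FF M, IsBlk f → Pos ℓ f ⊤ → DF.DfE ℓ Ab f ⊤ →
    ∀ χ ∈ Irr G, res M f χ = 1 → (ℓ : ℤ) ∣ altSum ℓ M χ

/-- FIN: the theorem. -/
def FinMLStmt : Prop := ∀ (ℓ : ℕ) [Fact ℓ.Prime] (M : Ideal (integralClosure ℤ ℂ)) [M.IsMaximal],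
  (ℓ : integralClosure ℤ ℂ) ∈ M → ∀ (G : Type) [Group G] [Finite G],
  opCore ℓ G ≤ Subgroup.center G → ∀ χ ∈ Irr G, LargeDefect ℓ M χ →
  (∃ (x : G) (P : Subgroup G), ¬ Cong M (omega (MonoidHom.id G) χ x) 0 ∧
    P ≤ Subgroup.centralizer ({x} : Set G) ∧ IsPGroup ℓ P ∧
    ¬ ℓ ∣ P.relIndex (Subgroup.centralizer ({x} : Set G)) ∧
    ∀ a ∈ P, ∀ b ∈ P, a * b * a⁻¹ * b⁻¹ ∈ opCore ℓ G) →
  ((ℓ * Nat.card (opCore ℓ G) : ℕ) : ℤ) ∣ altSum ℓ M χ

end Pool.Agent.PP.ML
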