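import Pool.Agent.Helper98_CC.Final
import Pool.Agent.Helper71_ML.Pur
import Pool.Agent.Helper71_ML.Tau
import Pool.Agent.Helper30_ML.CLO
import Pool.Agent.Helper84_ML.Brd
import Pool.Agent.Helper60_ML.T1
import Pool.Agent.Helper3_ML.Cox
import Pool.Agent.Helper17_ML.MOB
import Pool.Agent.Helper32_ML.Wdv
import Pool.Agent.Helper19_ML.LAM
import Pool.Agent.Helper24_ML.REG
import Pool.Agent.Helper10_ML.Glu
import Pool.Agent.Helper66_D2.AsmD2

/-!
# Squad ML: assembly, stage 1
-/

noncomputable section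

namespace Pool.Agent.PP.ML

theorem clo_ : CloStmt := H30.clo H71.pur

theorem t1_ : T1Stmt := H60.t1 H71.tauS clo_ H84.brd

theorem mob_ : MobStmt := H17.mob H3.cox

theorem wdv_ : WdvStmt := H32.wdv t1_ mob_

theorem lam_ : LamStmt := H19.lam D1.H9.inv

theorem glu_ : GluStmt := H10.glu Pool.Agent.Helper98_CC.labAll wdv_ lam_ H24.reg

end Pool.Agent.PP.ML
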