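import Pool.Agent.Helper66_ML.Asm1
import Pool.Agent.Helper66_ML.Stmts3
import Pool.Agent.Helper24_ML.Core
import Pool.Agent.Helper98_ML.TL1
import Pool.Agent.Helper71_ML.TL3
import Pool.Agent.Helper90_ML.MobK
import Pool.Agent.Helper60_ML.Wda
import Pool.Agent.Helper48_ML.WDVS
import Pool.Agent.Helper90_ML.Lda
import Pool.Agent.Helper90_ML.Num
import Pool.Agent.Helper51_ML.LIM
import Pool.Agent.Helper51_ML.SEL
import Pool.Agent.Helper43_ML.Tei
import Pool.Agent.Helper43_ML.Gen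
import Pool.Agent.Helper62_ML.ALB
import Pool.Agent.Helper62_ML.CHP
import Pool.Agent.Helper10_ML.Lls
import Pool.Agent.Helper92_ML.DVR
import Pool.Agent.Helper35_ML.Cub
import Pool.Agent.Helper27_ML.NN2
import Pool.Agent.Helper86_ML.NN3
import Pool.Agent.Helper9_ML.MN2
import Pool.Agent.Helper6_ML.MN3
import Pool.Agent.Helper28_ML.LYO
import Pool.Agent.Helper65_ML.EXG
import Pool.Agent.Helper77_ML.Fin

/-!
# Squad ML: assembly, stage 2
-/

noncomputable section

namespace Pool.Agent.PP.ML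

theorem wda_ : WdaStmt := H60.Wda.wda (H90.mobK H3.cox)

theorem wdvL_ : WdvLStmt := H48.wdvL wda_ (H98.tl1 H24.core)

theorem wdv3_ : Wdv3Stmt := H48.wdv3 wda_ (H71.tl3 H24.core)

theorem wdv2_ : Wdv2Stmt := H48.wdv2 wda_ H24.tl2'

theorem dvr_ : DvrStmt := H92.dvr wdvL_ wdv3_ wdv2_

theorem num_ : NumStmt := H90.num H10.lls

theorem sel_ : SelStmt := H51.sel H50.bid Pool.Agent.Helper79_WRA.labelAll

theorem nn3_ : Nn3Stmt :=
  H86.nn3 num_ H62.alb H43.tei H90.lda dvr_ H62.chp (H35.cub H43.tei H90.lda) lam_ H24.reg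

theorem nn2_ : Nn2Stmt :=
  H27.nn2 num_ H62.alb H43.tei H90.lda dvr_ H62.chp (H35.sqr H43.tei H90.lda) lam_ H24.reg

theorem exg_ : ExgStmt := H65.exg H28.lyo

theorem finML_ : FinMLStmt := H77.fin glu_

theorem gen_ : GenStmt := H43.gen

end Pool.Agent.PP.ML
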