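import Pool.Agent.Helper66_ML.Stmts3

/-!
# Squad ML, stage 2: central `O_ℓ(G)`, elements central modulo `O_ℓ(G)`
-/

open scoped BigOperators

noncomputable section

namespace Pool.Agent.PP.ML

open Pool.Agent.Helper51_AWC Pool.Agent.Helper79_WRA Pool.Agent.PP Pool.Agent.Helper98_CC

/-- DEX: defect groups exist (min-max theorem).  Proof: let `y` be an element with
`ω_χ(y) ∉ M` such that a Sylow `ℓ`-subgroup `P` of `C(y)` is as small as possible.  Let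
`ω_χ(y') ∉ M`.  Modulo `M` the product of the values at the classes of `y` and `y'` is the sum over
the classes of `h` of `a_h ω_χ(h)`, `a_h` = number of the pairs `(u, v)`, `u ∼ y`, `v ∼ y'`,
`u v = h`.  Some `a_h ω_χ(h)` is not zero.  A Sylow subgroup `P_h` of `C(h)` acts on these pairs, and
`ℓ ∤ a_h`, so a pair is fixed: `P_h` commutes with conjugates of `y` and `y'`, hence is conjugate to
a subgroup of `P` (so to `P`, by minimality), and is in the centraliser of a conjugate of `y'`. -/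
def DexStmt : Prop := ∀ (ℓ : ℕ) [Fact ℓ.Prime] (M : Ideal (integralClosure ℤ ℂ)) [M.IsMaximal],
  (ℓ : integralClosure ℤ ℂ) ∈ M → ∀ (G : Type) [Group G] [Finite G] (χ : G → ℂ), χ ∈ Irr G →
  ∃ D : Subgroup G, IsDef ℓ M χ D

/-- EXR: the element of EXG for `z = 1` is `ℓ`-regular (the element `s` in the proof of EXG). -/
def ExrStmt : Prop := ∀ (ℓ : ℕ) [Fact ℓ.Prime] (M : Ideal (integralClosure ℤ ℂ)) [M.IsMaximal],
  (ℓ : integralClosure ℤ ℂ) ∈ M → ∀ (G : Type) [Group G] [Finite G] (χ : G → ℂ), χ ∈ Irr G →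
  ∀ D : Subgroup G, IsDef ℓ M χ D →
  ∃ s : G, ¬ ℓ ∣ orderOf s ∧ ¬ Cong M (omega (MonoidHom.id G) χ s) 0 ∧
    D ≤ Subgroup.centralizer ({s} : Set G) ∧
    ¬ ℓ ∣ D.relIndex (Subgroup.centralizer ({s} : Set G))

/-- IDQ: defect groups of a block of `A / Z`, `Z` a central `ℓ`-subgroup.  Proof:
`ω_(ψ p)(y) = n_y ω_ψ(p y)`, `n_y` the number of the `z ∈ Z` with `z y ∼ y`, a power of `ℓ`.
(1) `x` as in `IsDef` for `χ`: `ω_χ(x) ∉ M`, so `n_x = 1`, `ω_ψ(p x) ∉ M`, `C(p x) = p(C(x))`,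
`Z ≤ D`.  (2) if `ȳ` is `ℓ`-regular and `ω_ψ(ȳ) ∉ M`: `ȳ = p y`, `y` `ℓ`-regular, `n_y = 1`, so
`ω_χ(y) ∉ M` and a conjugate of `D` commutes with `y`.  (3) let `D'` be a defect group of `ψ` (DEX),
`s` as in EXR for `D'`: by (2) a conjugate of `p D` is in `C(s)`, so conjugate to a subgroup of `D'`.
So for every `y` with `ω_ψ(y) ∉ M` a conjugate of `p D` commutes with `y`. -/
def IdqStmt : Prop := ∀ (ℓ : ℕ) [Fact ℓ.Prime] (M : Ideal (integralClosure ℤ ℂ)) [M.IsMaximal],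
  (ℓ : integralClosure ℤ ℂ) ∈ M → ∀ (A B : Type) [Group A] [Finite A] [Group B] [Finite B]
  (p : A →* B), Function.Surjective p → IsPGroup ℓ p.ker → p.ker ≤ Subgroup.center A →
  ∀ χ ∈ Irr A, ∀ D : Subgroup A, IsDef ℓ M χ D → ∀ ψ ∈ Irr B,
    (∀ g : A, red M (omega (MonoidHom.id A) (fun a => ψ (p a)) g) =
      red M (omega (MonoidHom.id A) χ g)) → IsDef ℓ M ψ (D.map p)

/-- MN4: the main theorem, for elements `z` of `D` which are central modulo `O_ℓ(G)`.  Proof: as MN2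
(Helper9_ML/MN2.lean: `altSum χ = |Z| ∑ altSum ψ` over blocks of `G / Z`), IDQ, MN3 for `G / Z`. -/
def Mn4Stmt : Prop := ∀ (ℓ : ℕ) [Fact ℓ.Prime] (M : Ideal (integralClosure ℤ ℂ)) [M.IsMaximal],
  (ℓ : integralClosure ℤ ℂ) ∈ M → ∀ (G : Type) [Group G] [Finite G],
  opCore ℓ G ≤ Subgroup.center G → ∀ χ ∈ Irr G, ∀ D : Subgroup G, IsDef ℓ M χ D →
  ∀ (A : Type) [CommGroup A] (ρ : D →* A), (∀ r : D, (r : G) ∈ opCore ℓ G → ρ r = 1) →
  ∀ z : D, (∀ d : D, (z * d * (z : G)⁻¹ * (d : G)⁻¹ : G) ∈ opCore ℓ G) →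
    ((orderOf (ρ z) * Nat.card (opCore ℓ G) : ℕ) : ℤ) ∣ altSum ℓ M χ

end Pool.Agent.PP.ML
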