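import Pool.Agent.Helper66_ML.Mn1
import Pool.Agent.Helper66_ML.Stmts4
import Pool.Agent.Helper65_ML.DEX
import Pool.Agent.Helper86_ML.EXR
import Pool.Agent.Helper10_ML.Idq

/-!
# Squad ML: assembly, the main theorems
-/

noncomputable section

namespace Pool.Agent.PP.ML

theorem mn1_ : Mn1Stmt := H66.mn1 H62.alb sel_ (H51.lim H90.lda) H90.lda H43.ord

theorem mn2_ : Mn2Stmt := H9.mn2 mn1_ dvr_

theorem mn3_ : Mn3Stmt := H6.mn3 mn2_ exg_

theorem dex_ : DexStmt := H65x.dex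

theorem exr_ : ExrStmt := H86.exr H28.lyo

theorem idq_ : IdqStmt := H10D.idq dex_ exr_

end Pool.Agent.PP.ML
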