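import Pool.Agent.Helper66_ML.Asm2

/-!
# Squad ML: the final theorem
-/

noncomputable section

namespace Pool.Agent.PP.ML

open Pool.Agent.Helper51_AWC Pool.Agent.Helper79_WRA Pool.Agent.PP

theorem glu_ab (ℓ : ℕ) [Fact ℓ.Prime] (M : Ideal (integralClosure ℤ ℂ)) [M.IsMaximal]
    (hM : (ℓ : integralClosure ℤ ℂ) ∈ M) (G : Type) [Group G] [Finite G]
    (hc : opCore ℓ G ≤ Subgroup.center G) (χ : G → ℂ) (hχ : χ ∈ Irr G) (D : Subgroup G)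
    (hD : IsDef ℓ M χ D) (hL : LargeDefect ℓ M χ)
    (h : ∀ a ∈ D, ∀ b ∈ D, a * b * a⁻¹ * b⁻¹ ∈ opCore ℓ G) :
    ((ℓ * Nat.card (opCore ℓ G) : ℕ) : ℤ) ∣ altSum ℓ M χ := by
  obtain ⟨hp, ⟨x, hx, h1, h2⟩, -⟩ := hD
  exact finML_ ℓ M hM G hc χ hχ hL ⟨x, D, hx, h1, hp, h2, h⟩

/-- the quotient of a subgroup by the intersection with a normal subgroup -/
theorem exists_quot {G : Type} [Group G] (Z D : Subgroup G) [hZ : Z.Normal] :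
    ∃ (P₀ : Type) (_ : Group P₀) (f : D →* P₀), Function.Surjective f ∧
      ∀ u : D, f u = 1 ↔ (u : G) ∈ Z := by
  refine ⟨D ⧸ Z.subgroupOf D, inferInstance, QuotientGroup.mk' _, QuotientGroup.mk'_surjective _,
    fun u => ?_⟩
  rw [QuotientGroup.mk'_apply, QuotientGroup.eq_one_iff, Subgroup.mem_subgroupOf]

theorem elab_sub (ℓ : ℕ) (Q R : Type) [Group Q] [Group R] (j : Q →* R)
    (hj : Function.Injective j) (h : ElAb ℓ R) : ElAb ℓ Q := by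
  refine ⟨fun a b => hj ?_, fun a => hj ?_⟩
  · rw [map_mul, map_mul, h.1]
  · rw [map_pow, map_one, h.2]

theorem el_div (ℓ m : ℕ) [Fact ℓ.Prime] (M : Ideal (integralClosure ℤ ℂ)) [M.IsMaximal]
    (hM : (ℓ : integralClosure ℤ ℂ) ∈ M)
    (hm : ∀ (G : Type) [Group G] [Finite G], opCore ℓ G = ⊥ →
      letI := Ideal.Quotient.field M
      ∀ f : G → FF M, IsBlk f → Pos ℓ f ⊤ → DF.DfE ℓ (ElAb ℓ) f ⊤ →
        ∀ χ ∈ Irr G, res M f χ = 1 → (m : ℤ) ∣ altSum ℓ M χ)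
    (G : Type) [Group G] [Finite G]
    (hc : opCore ℓ G ≤ Subgroup.center G) (χ : G → ℂ) (hχ : χ ∈ Irr G) (D : Subgroup G)
    (hD : IsDef ℓ M χ D) (hL : LargeDefect ℓ M χ)
    (h : ∀ a ∈ D, ∀ b ∈ D, a * b * a⁻¹ * b⁻¹ ∈ opCore ℓ G)
    (h' : ∀ a ∈ D, a ^ ℓ ∈ opCore ℓ G) :
    ((m * Nat.card (opCore ℓ G) : ℕ) : ℤ) ∣ altSum ℓ M χ := by
  obtain ⟨hp, ⟨x, hx, h1, h2⟩, -⟩ := hD
  have hn : (opCore ℓ G).Normal := Pool.Agent.PP.H75.opCore_normal (A := G) ℓ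
  obtain ⟨P₀, i, f, hf, hk⟩ := exists_quot (opCore ℓ G) D
  refine gen_ ℓ M hM (ElAb ℓ) m (elab_sub ℓ) hm G hc χ hχ hL
    ⟨x, D, hx, h1, hp, h2, P₀, i, f, ⟨fun a b => ?_, fun a => ?_⟩, hk⟩
  · obtain ⟨a', rfl⟩ := hf a
    obtain ⟨b', rfl⟩ := hf b
    have := (hk (a' * b' * a'⁻¹ * b'⁻¹)).2 (h a' a'.2 b' b'.2)
    rw [map_mul, map_mul, map_mul, map_inv, map_inv] at this
    rw [mul_inv_eq_one, mul_inv_eq_iff_eq_mul] at this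
    exact this
  · obtain ⟨a', rfl⟩ := hf a
    have := (hk (a' ^ ℓ)).2 (h' a' a'.2)
    rwa [map_pow] at this

end Pool.Agent.PP.ML
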