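import Pool.Agent.Helper66_ML.Mn4

/-!
Alperin's weight conjecture in alternating-sum form: divisibility of the alternating sum of a block by
the order of an element of its defect group `D` in `D / [D, D] O_ℓ(G)`.
-/

open scoped BigOperators

noncomputable section

namespace Pool.Agent.PP.ML.KeptDefectDivisibility

open Pool.Agent.Helper51_AWC Pool.Agent.PP.ML

/-- Let `G` be a finite group with `O_ℓ(G) ≤ Z(G)`, `χ ∈ Irr(G)` and `D` a defect group of the block
of `χ` (`IsDef`).  Let `z ∈ D` be central modulo `O_ℓ(G)`, that is `[z, D] ⊆ O_ℓ(G)`.  Then the order of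
the image of `z` in `D / [D, D] O_ℓ(G)` (that is, in every abelian image of `D` in which the image of
`O_ℓ(G)` is trivial), times `|O_ℓ(G)|`, divides the alternating sum of the block of `χ`. -/
theorem result :
    ∀ (ℓ : ℕ) [Fact ℓ.Prime] (M : Ideal (integralClosure ℤ ℂ)) [M.IsMaximal],
      (ℓ : integralClosure ℤ ℂ) ∈ M → ∀ (G : Type) [Group G] [Finite G],
      opCore ℓ G ≤ Subgroup.center G → ∀ χ ∈ Irr G, ∀ D : Subgroup G, IsDef ℓ M χ D →
      ∀ (A : Type) [CommGroup A] (ρ : D →* A), (∀ r : D, (r : G) ∈ opCore ℓ G → ρ r = 1) →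
      ∀ z : D, (∀ d : D, (z * d * (z : G)⁻¹ * (d : G)⁻¹ : G) ∈ opCore ℓ G) →
        ((orderOf (ρ z) * Nat.card (opCore ℓ G) : ℕ) : ℤ) ∣ altSum ℓ M χ :=
  mn4_

end Pool.Agent.PP.ML.KeptDefectDivisibility
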