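import Pool.Agent.Helper66_ML.Asm2

/-!
# Squad ML, stage 2, row MN1: the main theorem for trivial `O_ℓ(G)`
-/

open scoped BigOperators

noncomputable section

namespace Pool.Agent.PP.ML.H66

open Pool.Agent.Helper51_AWC Pool.Agent.Helper79_WRA Pool.Agent.PP Pool.Agent.Helper98_CC
open Pool.Agent.Helper90_CC Pool.Agent.Helper97_CC

/-- MN1. -/
theorem mn1 (hA : AlbStmt) (hSel : SelStmt) (hLim : LimStmt) (hLd : LdaStmt) (hOrd : OrdStmt) :
    Mn1Stmt := by
  intro ℓ hp M hM hℓ G _ _ hop χ hχ g hg n hDV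
  classical
  obtain ⟨E, hE0, hE⟩ := hOrd ℓ M hℓ _ hg
  obtain ⟨f, hfc, hfi, hf⟩ := hSel ℓ M hℓ G χ hχ
  have hft := Fintype.ofFinite (PChain ℓ G)
  -- the numbers `z_a`
  let z : (G → ℂ) → ℂ := fun a => omega (MonoidHom.id G) a g ^ E * omF f a
  have hN : ∀ a ∈ Finset.univ.biUnion (fun d : PChain ℓ G => IR (stab d.mem)),
      ∃ N₀ : ℕ, ∀ N ≥ N₀, LD M (ℓ ^ n)
        (z a ^ ℓ ^ N - if labF M a = labF M χ then 1 else 0) := by
    intro a ha
    rw [Finset.mem_biUnion] at ha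
    obtain ⟨d, -, ha⟩ := ha
    have ha' := mem_IR.1 ha
    obtain ⟨h1, h2, h3⟩ := hf d.mem d.pgroup d.chain a ha'
    have hio : IsIntegral ℤ (omega (MonoidHom.id G) a g) := omega_IrrS_integral ha' g
    have hiz : IsIntegral ℤ (z a) := (hio.pow E).mul h1
    have hrz : red M (z a) = red M (omega (MonoidHom.id G) a g) ^ E * red M (omF f a) := by
      show red M (omega (MonoidHom.id G) a g ^ E * omF f a) = _
      rw [red_mul (hio.pow E) h1, red_pow hio]
    obtain ⟨k1, k2⟩ := hLim ℓ M hℓ n (z a) hiz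
    by_cases h : labF M a = labF M χ
    · have h4 : red M (omega (MonoidHom.id G) a g) = red M (omega (MonoidHom.id G) χ g) :=
        congrFun h g
      have h5 : red M (z a) = 1 := by
        rw [hrz, h4, hE, h2 h, one_mul]
      obtain ⟨N₀, hN₀⟩ := k2 h5
      refine ⟨N₀, fun N hN => ?_⟩
      rw [if_pos h]
      exact hN₀ N hN
    · have h5 : red M (z a) = 0 := by
        rw [hrz, h3 h, mul_zero]
      obtain ⟨N₀, hN₀⟩ := k1 h5
      refine ⟨N₀, fun N hN => ?_⟩
      rw [if_neg h, sub_zero]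
      exact hN₀ N hN
  choose! N₀ hN₀ using hN
  obtain ⟨N, hNge⟩ : ∃ N : ℕ, ∀ a ∈ Finset.univ.biUnion
      (fun d : PChain ℓ G => IR (stab d.mem)), N₀ a ≤ N :=
    ⟨Finset.sup _ N₀, fun a ha => Finset.le_sup ha⟩
  -- the sum over the chains
  have h1 : LD M (ℓ ^ n) (altF ℓ fun a => z a ^ ℓ ^ N) := by
    have h2 := H90.num_aux (M := M) H10.lls hℓ hop (ℓ ^ n) g (List.replicate (ℓ ^ N) f)
      (List.replicate (E * ℓ ^ N - 1) g) (fun h hh => by
        rw [List.eq_of_mem_replicate hh]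
        exact ⟨hfc, hfi⟩) (hDV _)
    have h3 : (fun a : G → ℂ => omega (MonoidHom.id G) a g *
        ((List.replicate (E * ℓ ^ N - 1) g).map fun b => omega (MonoidHom.id G) a b).prod *
        ((List.replicate (ℓ ^ N) f).map fun h => omF h a).prod) = fun a => z a ^ ℓ ^ N := by
      funext a
      rw [List.map_replicate, List.map_replicate, List.prod_replicate, List.prod_replicate]
      have h4 : 0 < E * ℓ ^ N := Nat.mul_pos hE0 (pow_pos hp.out.pos N)
      rw [← pow_succ', Nat.sub_add_cancel h4]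
      show omega (MonoidHom.id G) a g ^ (E * ℓ ^ N) * omF f a ^ ℓ ^ N =
        (omega (MonoidHom.id G) a g ^ E * omF f a) ^ ℓ ^ N
      rw [mul_pow, pow_mul]
    rw [h3] at h2
    exact h2
  have h2 : ∀ d : PChain ℓ G, LD M (ℓ ^ n) (∑ a ∈ IR (stab d.mem), z a ^ ℓ ^ N +
      ((-1 : ℤ) : ℂ) * (((IR (stab d.mem)).filter fun a => labF M a = labF M χ).card : ℂ)) := by
    intro d
    have h3 : ∑ a ∈ IR (stab d.mem), z a ^ ℓ ^ N +
      ((-1 : ℤ) : ℂ) * (((IR (stab d.mem)).filter fun a => labF M a = labF M χ).card : ℂ) =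
      ∑ a ∈ IR (stab d.mem), (z a ^ ℓ ^ N - if labF M a = labF M χ then 1 else 0) := by
      rw [Finset.sum_sub_distrib, Finset.sum_boole]
      push_cast
      ring
    rw [h3]
    apply H27.ld_sum hLd hℓ
    intro a ha
    have ha' : a ∈ Finset.univ.biUnion (fun d : PChain ℓ G => IR (stab d.mem)) :=
      Finset.mem_biUnion.2 ⟨d, Finset.mem_univ _, ha⟩
    exact hN₀ a ha' N (hNge a ha')
  have h3 := H27.comb (ℓ := ℓ) hLd hA hℓ hop hχ _ (-1) (by norm_num) h1 h2
  exact (hLd ℓ M hℓ).2.2.2.2 n (altSum ℓ M χ) h3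

end Pool.Agent.PP.ML.H66
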